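import Pool.Agent.Y691.LR.Main

set_option autoImplicit false

namespace Pool.Agent.Results.MP_64d5df_nt.TranslationFails

open Finset Pool.Agent.Y691.LR

theorem result :
    (∀ n : ℕ, 1 ≤ n →
      ((∀ V : Finset ℕ, V.card = n → (∀ v ∈ V, 0 < v) → ∀ a : ℕ, 0 < a →
        gap V ≤ gap (V.image (a + ·))) ↔ n = 1)) ∧
    (∀ n : ℕ, 2 ≤ n → ∃ (V : Finset ℕ) (a : ℕ), V.card = n ∧ (∀ v ∈ V, 0 < v) ∧ 0 < a ∧
      gap V = 1 / 2 ∧ gap (V.image (a + ·)) = 1 / (n + 1)) ∧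
    (∀ n : ℕ, 3 ≤ n → ∃ (V : Finset ℕ) (a : ℕ), V.card = n ∧ (∀ v ∈ V, 0 < v) ∧ 0 < a ∧
      1 / 3 ≤ gap V ∧ gap V ≤ 2 / 5 ∧ gap (V.image (a + ·)) = 1 / (n + 1)) :=
  ⟨fun _ hn => iff_one hn, fun _ hn => half_case hn, fun _ hn => third_case hn⟩

end Pool.Agent.Results.MP_64d5df_nt.TranslationFails
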